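import Mathlib

/-!
# A pre-upho coloring whose monoid is not left-cancellative and has no gcds

A graded lattice with 31 elements and a pre-upho coloring.
-/

set_option autoImplicit false

namespace Pool.Agent.H34.Upho

/-! ## General definitions -/

section Defs

variable {L : Type} [Lattice L] [BoundedOrder L]

/-- The atoms of `L`. -/
abbrev Atm (L : Type) [Lattice L] [BoundedOrder L] : Type := {s : L // IsAtom s}

/-- rank function -/
def IsRank (ρ : L → ℕ) : Prop := ρ ⊥ = 0 ∧ ∀ x y : L, x ⋖ y → ρ y = ρ x + 1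

/-- pre-upho coloring -/
structure PreUpho (ρ : L → ℕ) (c : L → L → Atm L) : Prop where
  bot : ∀ s : Atm L, c ⊥ s = s
  emb : ∀ x J : L, x ≠ ⊥ → x ≠ ⊤ → IsLUB {y | x ⋖ y} J → ∃ φ : Set.Icc x J → L,
    (∀ u v, φ u ≤ φ v ↔ u ≤ v) ∧ (∀ u, ρ (φ u) + ρ x = ρ u) ∧
    ∀ u v : Set.Icc x J, (u : L) ⋖ (v : L) → φ u ⋖ φ v ∧ c (φ u) (φ v) = c u v

/-- words of saturated chains -/
inductive ChainWord (c : L → L → Atm L) : L → L → List (Atm L) → Prop
  | nil (x : L) : ChainWord c x x []
  | cons {x y z : L} {w : List (Atm L)} (h : x ⋖ y) (hw : ChainWord c y z w) :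
      ChainWord c x z (c x y :: w)

/-- defining relations -/
def Rel (c : L → L → Atm L) (a b : FreeMonoid (Atm L)) : Prop :=
  ∃ (x y : Atm L) (u v : List (Atm L)),
    ChainWord c (x : L) ((x : L) ⊔ (y : L)) u ∧ ChainWord c (y : L) ((x : L) ⊔ (y : L)) v ∧
    a = FreeMonoid.ofList (c ⊥ x :: u) ∧ b = FreeMonoid.ofList (c ⊥ y :: v)

/-- The monoid `M` of the coloring. -/
abbrev Mon (c : L → L → Atm L) : Type := PresentedMonoid (Rel c)

end Defs

/-- `u ≤_L v`: `u` is a left divisor of `v`. -/
def LeftDvd {M : Type} [Monoid M] (u v : M) : Prop := ∃ w, v = u * w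

/-- `d` is a greatest common left divisor of `u` and `v`. -/
def IsGCLD {M : Type} [Monoid M] (d u v : M) : Prop :=
  LeftDvd d u ∧ LeftDvd d v ∧ ∀ d', LeftDvd d' u → LeftDvd d' v → LeftDvd d' d

/-! ## Homomorphisms from the monoid -/

section Hom

variable {L : Type} [Lattice L] [BoundedOrder L] {c : L → L → Atm L}

theorem ChainWord.value {N : Type} [Monoid N] (f : Atm L → N) (V : L → N)
    (hV : ∀ u v : L, u ⋖ v → V v = V u * f (c u v)) {x z : L} {w : List (Atm L)}
    (h : ChainWord c x z w) : V z = V x * (w.map f).prod := by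
  induction h with
  | nil x => simp
  | cons hxy hw ih =>
    rw [ih, hV _ _ hxy]
    simp [mul_assoc]

theorem rel_value {N : Type} [Monoid N] (f : Atm L → N) (V : L → N) (h1 : V ⊥ = 1)
    (hV : ∀ u v : L, u ⋖ v → V v = V u * f (c u v)) (a b : FreeMonoid (Atm L))
    (h : Rel c a b) : FreeMonoid.lift f a = FreeMonoid.lift f b := by
  obtain ⟨x, y, u, v, hu, hv, rfl, rfl⟩ := h
  have e1 := hu.value f V hV
  have e2 := hv.value f V hV
  have hx : V x = f (c ⊥ x) := by
    rw [hV ⊥ x (bot_covBy_iff.2 x.2), h1, one_mul]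
  have hy : V y = f (c ⊥ y) := by
    rw [hV ⊥ y (bot_covBy_iff.2 y.2), h1, one_mul]
  rw [FreeMonoid.lift_ofList, FreeMonoid.lift_ofList]
  simp only [List.map_cons, List.prod_cons]
  rw [← hx, ← hy, ← e1, ← e2]

/-- The homomorphism from the monoid to `N` sending each atom `s` to `f s`. -/
def toHom {N : Type} [Monoid N] (f : Atm L → N) (V : L → N) (h1 : V ⊥ = 1)
    (hV : ∀ u v : L, u ⋖ v → V v = V u * f (c u v)) : Mon c →* N :=
  PresentedMonoid.lift f (rel_value f V h1 hV)

end Hom

/-! ## The lattice -/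

def leT : ℕ := 0x10000000300000005000000090000001100000021000000410000008100000181000003010000060100000a0100001201000022010000420100008401000108010002080100040801000c0a0100180c01002c060100540a0100980c010108020102100c0104200c010860240110a0140120c018017fffffff
def supT : ℕ := 0x1ef7bdef7bdef7bdef7bdef7bdef7bdef7bdef7bddf7bdef7bbdefbdef7bdef77bef7bdef7bdeefbdcf7bdef7bdee7bdef7bdef7b9cf7bdef7bdcf7bdbf7bdef7bdedfbdef7bdef6fdbf7bdef7b7ef7bdaf7bdef7bded7bdef7bdef6b5ef7bdef6bdef7bd9f7bdef7bdece73ef7bdef7b39ce73ecfbdef7bd8f7bdef7bdef7b1ef7bdef7bdec7b18f7bdef7bd7f7bdef7bdef7afef7bdef7bdebdefeefbdef7bd6ef7def7bdef7addf7bdef7bdef5bddf7bdef7bb5efbdef7bdef76bef7bdef7bdeafbbef7bdef77b4f7bdef7bdea53def7bdef7bd4f7b9ef7bdef7bd3f7bdef7bdef4e7ef7bdef7a7ef7b7ef7bdef7bd2f7bdef7bde97a5ef7bdef4bdef7b5ef7bdef7bd1f7bdef7bde8c7def7bde8fbdef7b3ef7bdef7bd0ce7def7bdef6619867d0f7bdef67def7bdef7b2fcfbdef7bde7bdf9cf9fef7bdecfbdef7bdef672ef7bdef7bd9cbb2ef3bdef7bdec7bdef7bdef7bcdf7bdef7bdef37cd6fbdef7bdebfbdef7bdef7bccf7bdef7bdef318cf77def7bdeb769ef7bdef7bcba7bdef7bdef797eefbdef7bddad3def7bdef7a8af7bdef7bdef2bdee6fdef7bdef4e5ef7bdef7bc99cbdef7bde4fbdcf6bdef7bde9fa3ef7bdef7a688fbdef7bc8f7bdbd7bdef7bde947def7bdef4a27f7bdef78fef7bdecfbdef7bdef65f9f7bdef7bc67bf39f1bdef7bd9f7bdef7bde83f3ef7bdef79e57c33e2fbdef7b3ef7bdef7bd97bbdef7bdef3de4cbbc4f7bdef671ef7bdef7a19cb7def7bdecc323cb47ef7bdecfafef7bdef672ef33def7bd9cbb2260bdef7bdec5fdef7bdef7bcd67bdef7bdef35810fbbcdeb38bdab49ca307b9ac5a928398a418820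
def infT : ℕ := 0x1eef37ace2f6ad2728c1ee6b16a4a0e629062083bd00000002d5a00000000002d4000000000000701c4a000000009a50000000001280000000000d813b380000000991c000000002407000000001a020fa00000001078800000000020e0000000032000019188000000083dc310000000c520c4006000000780800000003001a1000000000018020b800000837000000000010580000000000010416b00000001602c0000000001600000000000002b500000000155000000000001400000000000052800000002d5400000000005a80000000000009826940000000134a000000000250000000000120264700000001323800000000480e0000000022041e2000000020f1000000000041c0000000040000020300000000102806000000000a0180007800003c0000000000af2000000000314800000e0000070040000000008e008000000001002001a00000368400000001800d080000000000c01030000004160000000000082c0000000000008205ac000000058160000000000b00000000000000a500000000052800000000000a0000000000001204a400000000252000000000090000000000020080200000000401000000000008000000000038007380000000039c0000000000070000000006000003000000000000c0000000000600000000a00000500000000002940000000000050000001000000800000000000210000000000004000001800000c60000000006000c000000000003000020000010040000000000200800000000000200020000000840000000000010800000000000010000000000000000000000000000000000000000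
def colT : ℕ := 0x210842108421084210842108421084210842108821084210842108421084210842108421084210842108421084210842108421084210842108421084210842108421084210842108421084210842108421084210842108421084210842108421088210842108421084210842108421084210842110421084210842108421084210842108421084220842108421084210842108421084210842108421084210842108421084210842108421084210842108421084210842108421084210842108421084210842108421084210842108421084210842108c210842108421084210842108421084210842108c210842108421084210842108421084210842108c21084210842108421084210842108421084210882108421084210842108421084210842108421144210842108421084210842108421084210842208421084210842108421084210842108421084220842108421084210842108421084210842108422084210842108421084210842108421084210842308a2108421084210842108421084210842108423104210842108421084210842108421084210842129621084210842108421084210842108421084258942108421084210842108421084210842108425a842108421084210842108421084210842108421084210842108421084210842108421084210842208421084210842108421084210842108421084211042108421084210842108421084210842108821144210842108421084210842108421084210845110421084210842108421084210842108421084520842108421084210842108421084210842108425a928398a418822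
def phiT : ℕ := 0x800000000000000000000000000000000000000800000000000000000000000000000000000001000000000000000000000000000000000000002000000000000000000000000000000000000008000000000000000000000000000000000000010000000000000000000000000000000000000020000000000000000000000000000000000000001000000000000000000000000000000000000002000000000000000000000000000000000000004000000000000000000000000000000000000000c000000000000000000000000000000000000000c000000000000000000000000000000000000000c000000000000000000000000000000000000000800000000000000000000000000000000000001400000000000000000000000000000000000002000000000000000000000000000000000000000200000000000000000000000000000000000000020000000000000000000000000000003c0000000300a0000000000000000000000000078000000003100000000000000000000000003a0ad8000000002960000000000000000000000741605400000005814000000000000000000000e8016a8000000005a8000000000000000000000000000000000000000040000000000000000000000000e00000000002080000000000000000000000001c0000000000011000000000000000000c800003a0000000000800140000000000000001900000801c0000000000501000000000000000320000008380000000000052000000000000000000000000000000000000000000000000000000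
def jT : ℕ := 0x7bdef7bdef77bde6f59ce717ef7def3f39f7bde

/-- The ground set: `0` is the bottom, `1,…,11` are the atoms, `12,…,22` have rank two,
`23,…,29` have rank three, `30` is the top. -/
def E : Type := Fin 31

instance : Fintype E := inferInstanceAs (Fintype (Fin 31))
instance : DecidableEq E := inferInstanceAs (DecidableEq (Fin 31))

def tb (T : ℕ) (x y : Fin 31) : Fin 31 := Fin.ofNat 31 (T / 32 ^ (x.1 * 31 + y.1) % 32)
def leB (x y : Fin 31) : Bool := leT.testBit (x.1 * 31 + y.1)

instance : Lattice E where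
  le x y := leB x y = true
  le_refl := (by decide +kernel : ∀ x : Fin 31, leB x x = true)
  le_trans := (by decide +kernel : ∀ x y z : Fin 31, leB x y = true → leB y z = true →
    leB x z = true)
  le_antisymm := (by decide +kernel : ∀ x y : Fin 31, leB x y = true → leB y x = true → x = y)
  sup := tb supT
  inf := tb infT
  le_sup_left := (by decide +kernel : ∀ x y : Fin 31, leB x (tb supT x y) = true)
  le_sup_right := (by decide +kernel : ∀ x y : Fin 31, leB y (tb supT x y) = true)
  sup_le := (by decide +kernel : ∀ x y z : Fin 31, leB x z = true → leB y z = true →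
    leB (tb supT x y) z = true)
  inf_le_left := (by decide +kernel : ∀ x y : Fin 31, leB (tb infT x y) x = true)
  inf_le_right := (by decide +kernel : ∀ x y : Fin 31, leB (tb infT x y) y = true)
  le_inf := (by decide +kernel : ∀ x y z : Fin 31, leB x y = true → leB x z = true →
    leB x (tb infT y z) = true)

instance : BoundedOrder E where
  top := (30 : Fin 31)
  bot := (0 : Fin 31)
  le_top := (by decide +kernel : ∀ x : Fin 31, leB x 30 = true)
  bot_le := (by decide +kernel : ∀ x : Fin 31, leB 0 x = true)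

/-- the rank -/
def rkF (x : Fin 31) : ℕ := if x.1 = 0 then 0 else if x.1 < 12 then 1 else if x.1 < 23 then 2 else
  if x.1 < 30 then 3 else 4

def rk (x : E) : ℕ := rkF x

def cvB (x y : Fin 31) : Bool := leB x y && rkF y == rkF x + 1

theorem cov_iff (x y : E) : x ⋖ y ↔ cvB x y = true :=
  (by decide +kernel : ∀ x y : Fin 31, ((leB x y = true ∧ ¬ leB y x = true) ∧ ∀ z : Fin 31,
    (leB x z = true ∧ ¬ leB z x = true) → ¬ (leB z y = true ∧ ¬ leB y z = true)) ↔
      cvB x y = true) x y

theorem atom_iff (x : E) : IsAtom x ↔ cvB 0 x = true := by rw [← bot_covBy_iff, cov_iff]; rfl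

/-- The coloring. -/
def col (x y : E) : Atm E := ⟨tb colT x y, (atom_iff _).2
  ((by decide +kernel : ∀ x y : Fin 31, cvB 0 (tb colT x y) = true) x y)⟩

def jF (x : Fin 31) : Fin 31 := Fin.ofNat 31 (jT / 32 ^ x.1 % 32)

theorem isLUB_J (x : E) (h : x ≠ ⊤) : IsLUB {y | x ⋖ y} (jF x : E) := by
  refine ⟨fun y hy => ?_, fun b hb => ?_⟩
  · exact (by decide +kernel : ∀ x y : Fin 31, cvB x y = true → leB y (jF x) = true) x y
      ((cov_iff _ _).1 hy)
  · exact (by decide +kernel : ∀ x b : Fin 31, x ≠ 30 → (∀ y, cvB x y = true → leB y b = true) →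
      leB (jF x) b = true) x b h fun y hy => hb ((cov_iff _ _).2 hy)

theorem isRank_rk : IsRank rk := by
  refine ⟨rfl, fun x y h => ?_⟩
  exact (by decide +kernel : ∀ x y : Fin 31, cvB x y = true → rkF y = rkF x + 1) x y
    ((cov_iff _ _).1 h)

theorem isLUB_top : IsLUB {s : E | IsAtom s} ⊤ := by
  refine ⟨fun s _ => le_top, fun b hb => ?_⟩
  exact (by decide +kernel : ∀ b : Fin 31, (∀ y, cvB 0 y = true → leB y b = true) →
    leB 30 b = true) b fun y hy => hb ((atom_iff y).2 hy)

theorem preUpho : PreUpho rk col where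
  bot s := Subtype.ext ((by decide +kernel : ∀ s : Fin 31, cvB 0 s = true → tb colT 0 s = s) s.1
    ((atom_iff _).1 s.2))
  emb x K h0 h1 hK := by
    obtain rfl := (isLUB_J x h1).unique hK
    refine ⟨fun u => (tb phiT x u.1 : E), fun u v => ?_, fun u => ?_, fun u v h => ?_⟩
    · exact (by decide +kernel : ∀ x : Fin 31, x ≠ 0 → ∀ u, leB x u = true → leB u (jF x) = true →
        ∀ v, leB x v = true → leB v (jF x) = true →
        (leB (tb phiT x u) (tb phiT x v) = true ↔ leB u v = true)) x h0 u.1 u.2.1 u.2.2 v.1 v.2.1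
          v.2.2
    · exact (by decide +kernel : ∀ x : Fin 31, x ≠ 0 → ∀ u, leB x u = true → leB u (jF x) = true →
        rkF (tb phiT x u) + rkF x = rkF u) x h0 u.1 u.2.1 u.2.2
    · have := (by decide +kernel : ∀ x : Fin 31, x ≠ 0 → ∀ u, leB x u = true →
        ∀ v, leB v (jF x) = true → cvB u v = true → cvB (tb phiT x u) (tb phiT x v) = true ∧
        tb colT (tb phiT x u) (tb phiT x v) = tb colT u v) x h0 u.1 u.2.1 v.1 v.2.2
          ((cov_iff _ _).1 h)
      exact ⟨(cov_iff _ _).2 this.1, Subtype.ext this.2⟩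

/-! ## The invariants -/

/-- The length homomorphism. -/
def len : Mon col →* Multiplicative ℕ :=
  toHom (fun _ => Multiplicative.ofAdd 1) (fun z => Multiplicative.ofAdd (rk z)) rfl (by
    intro u v huv
    rw [isRank_rk.2 u v huv]
    rfl)

/-- The monoid of transformations of `Fin n`, acting on the right. -/
abbrev Tr (n : ℕ) : Type := (Function.End (Fin n))ᵐᵒᵖ

/-- a function as a transformation -/
def tr {n : ℕ} (f : Fin n → Fin n) : Tr n := MulOpposite.op f

theorem tr_mul {n : ℕ} (a b : Fin n → Fin n) : tr a * tr b = tr (fun q => b (a q)) := rfl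

theorem tr_one {n : ℕ} : tr (fun q : Fin n => q) = 1 := rfl

theorem tr_inj {n : ℕ} {a b : Fin n → Fin n} (h : tr a = tr b) (q : Fin n) : a q = b q := by
  have := MulOpposite.op_injective h
  exact congrFun this q

/-- the function given by a table -/
def tf (n : ℕ) [NeZero n] (T : ℕ) (x : Fin 31) (q : Fin n) : Fin n :=
  Fin.ofNat n (T / 8 ^ (n * x.1 + q.1) % 8)

def fT1 : ℕ := 0x12492492492492492492492492492492492492492492492492492492492492492492492492452486492492492492492472491c924924924924924
def vT1 : ℕ := 0x12492492492492492492492492492492492492492392492492492492492492492492492492452486492492492492492472491c924924924924688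
def fT2 : ℕ := 0x6db6db6db6db6db6db6db6db6db6db6db6db6db6db6db6db6db6db6db6db6db6db6db6db6db6db6db6db6db6db6db6db6db6db6db6db6db6db6db6db6db6db6db6db6db47b6b32db6d9edb6c76db6db6db6
def vT2 : ℕ := 0x6db6db6db6db6db6db6db6db6db6db6db6db6db6db6db6db6db6db6db6db6db6db6db6db6db6db5db6db6db6d36db6db6db6db6db6db6db6db6db6db6db6db6db6db6db47b6b32db6d9edb6c76db6dac688
def fT3 : ℕ := 0x2db6db6db6db6db6db6db6db6db6db6db6db6db6db6db6db6db6db6db6db6db6db6db6db6db6db6db6db6db6c46db11b6c46db11b6c46db11b6c46db11b6c46dad1b6c46db6d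
def vT3 : ℕ := 0x2db6db6daedb6cb6db2db6cb6db2db6cb6db2db62b6d8adb62b6d8adb62b6d8adb62b6d6adb62b6d8adb62b6c46db11b6c46db11b6c46db11b6c46db11b6c46dad1b6c46c688

theorem v1_bot : ∀ q, tf 5 vT1 0 q = q := by decide +kernel
theorem v1_step : ∀ u v : Fin 31, cvB u v = true → ∀ q : Fin 5,
    tf 5 vT1 v q = tf 5 fT1 (tb colT u v) (tf 5 vT1 u q) := by decide +kernel
theorem v2_bot : ∀ q, tf 7 vT2 0 q = q := by decide +kernel
theorem v2_step : ∀ u v : Fin 31, cvB u v = true → ∀ q : Fin 7,
    tf 7 vT2 v q = tf 7 fT2 (tb colT u v) (tf 7 vT2 u q) := by decide +kernel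
theorem v3_bot : ∀ q, tf 6 vT3 0 q = q := by decide +kernel
theorem v3_step : ∀ u v : Fin 31, cvB u v = true → ∀ q : Fin 6,
    tf 6 vT3 v q = tf 6 fT3 (tb colT u v) (tf 6 vT3 u q) := by decide +kernel

/-- The first invariant. -/
def act1 : Mon col →* Tr 5 :=
  toHom (fun s => tr (tf 5 fT1 s.1)) (fun z => tr (tf 5 vT1 z))
    (by rw [← tr_one]; congr; ext q; exact congrArg _ (v1_bot q)) (by
    intro u v huv
    rw [tr_mul]; congr; ext q; exact congrArg _ (v1_step u v ((cov_iff _ _).1 huv) q))

/-- The second invariant. -/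
def act2 : Mon col →* Tr 7 :=
  toHom (fun s => tr (tf 7 fT2 s.1)) (fun z => tr (tf 7 vT2 z))
    (by rw [← tr_one]; congr; ext q; exact congrArg _ (v2_bot q)) (by
    intro u v huv
    rw [tr_mul]; congr; ext q; exact congrArg _ (v2_step u v ((cov_iff _ _).1 huv) q))

/-- The third invariant. -/
def act3 : Mon col →* Tr 6 :=
  toHom (fun s => tr (tf 6 fT3 s.1)) (fun z => tr (tf 6 vT3 z))
    (by rw [← tr_one]; congr; ext q; exact congrArg _ (v3_bot q)) (by
    intro u v huv
    rw [tr_mul]; congr; ext q; exact congrArg _ (v3_step u v ((cov_iff _ _).1 huv) q))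

/-! ## The relations used -/

/-- The generators of the monoid. -/
def g (s : Atm E) : Mon col := PresentedMonoid.of (Rel col) s

theorem len_g (s : Atm E) : len (g s) = Multiplicative.ofAdd 1 := rfl

theorem act1_g (s : Atm E) : act1 (g s) = tr (tf 5 fT1 s.1) := rfl
theorem act2_g (s : Atm E) : act2 (g s) = tr (tf 7 fT2 s.1) := rfl
theorem act3_g (s : Atm E) : act3 (g s) = tr (tf 6 fT3 s.1) := rfl

def aX : Atm E := ⟨(1 : Fin 31), (atom_iff _).2 (by decide +kernel)⟩
def aA : Atm E := ⟨(2 : Fin 31), (atom_iff _).2 (by decide +kernel)⟩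
def aB : Atm E := ⟨(3 : Fin 31), (atom_iff _).2 (by decide +kernel)⟩
def aD : Atm E := ⟨(4 : Fin 31), (atom_iff _).2 (by decide +kernel)⟩
def aE : Atm E := ⟨(5 : Fin 31), (atom_iff _).2 (by decide +kernel)⟩
def bX : Atm E := ⟨(7 : Fin 31), (atom_iff _).2 (by decide +kernel)⟩
def bA : Atm E := ⟨(8 : Fin 31), (atom_iff _).2 (by decide +kernel)⟩
def bB : Atm E := ⟨(9 : Fin 31), (atom_iff _).2 (by decide +kernel)⟩
def bD : Atm E := ⟨(10 : Fin 31), (atom_iff _).2 (by decide +kernel)⟩
def bE : Atm E := ⟨(11 : Fin 31), (atom_iff _).2 (by decide +kernel)⟩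

/-- A product of generators. -/
theorem mk_ofList (l : List (Atm E)) :
    PresentedMonoid.mk (Rel col) (FreeMonoid.ofList l) = (l.map g).prod := by
  induction l with
  | nil => rfl
  | cons a l ih =>
    rw [List.map_cons, List.prod_cons, ← ih]
    rfl

/-- The words of two chains are equal in the monoid. -/
theorem rel_words (x y : Atm E) (u v : List (Atm E))
    (hu : ChainWord col (x : E) ((x : E) ⊔ (y : E)) u)
    (hv : ChainWord col (y : E) ((x : E) ⊔ (y : E)) v) :
    ((x :: u).map g).prod = ((y :: v).map g).prod := by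
  rw [← mk_ofList, ← mk_ofList]
  refine Quotient.sound ?_
  refine ConGen.Rel.of _ _ ?_
  refine ⟨x, y, u, v, hu, hv, ?_, ?_⟩
  · rw [preUpho.bot]
  · rw [preUpho.bot]

/-- `x` is covered by `z`, with color `a` -/
def ck (x z a : Fin 31) : Bool := cvB x z && decide (tb colT x z = a)

theorem ck_iff (x z a : Fin 31) : ck x z a = true ↔ cvB x z = true ∧ tb colT x z = a := by
  unfold ck
  rw [Bool.and_eq_true, decide_eq_true_eq]

/-- A chain of length one. -/
theorem chain1 (x z : E) (a : Atm E) (h : ck x z a.1 = true) :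
    ChainWord col x z [a] := by
  have h := (ck_iff _ _ _).1 h
  have : a = col x z := Subtype.ext h.2.symm
  rw [this]
  exact ChainWord.cons ((cov_iff _ _).2 h.1) (ChainWord.nil z)

/-- A chain of length two. -/
theorem chain2 (x y z : E) (a b : Atm E) (h : ck x y a.1 = true) (h' : ck y z b.1 = true) :
    ChainWord col x z [a, b] := by
  have h := (ck_iff _ _ _).1 h
  have h1 : a = col x y := Subtype.ext h.2.symm
  rw [h1]
  exact ChainWord.cons ((cov_iff _ _).2 h.1) (chain1 y z b h')

/-- relations of length two -/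
theorem rel2 (x y : Atm E) (a b : Atm E) (h : ck x.1 (tb supT x.1 y.1) a.1 = true)
    (h' : ck y.1 (tb supT x.1 y.1) b.1 = true) :
    g x * g a = g y * g b := by
  have := rel_words x y [a] [b] (chain1 x.1 (tb supT x.1 y.1) a h)
    (chain1 y.1 (tb supT x.1 y.1) b h')
  simpa using this

theorem R1 : g aX * g aD = g aA * g aD := rel2 _ _ _ _ (by decide +kernel) (by decide +kernel)
theorem R2 : g aX * g aE = g aB * g aE := rel2 _ _ _ _ (by decide +kernel) (by decide +kernel)
theorem R3 : g aD * g aA = g aE * g aA := rel2 _ _ _ _ (by decide +kernel) (by decide +kernel)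
theorem R4 : g aE * g aD = g aB * g aD := rel2 _ _ _ _ (by decide +kernel) (by decide +kernel)

theorem R5 : g aA * (g aE * g aD) = g aE * (g aD * g aD) := by
  have := rel_words aA aE [aE, aD] [aD, aD]
    (chain2 aA.1 (14 : Fin 31) (tb supT aA.1 aE.1) aE aD (by decide +kernel) (by decide +kernel))
    (chain2 aE.1 (16 : Fin 31) (tb supT aA.1 aE.1) aD aD (by decide +kernel) (by decide +kernel))
  simpa using this

theorem Q1 : g bX * g bD = g bA * g bD := rel2 _ _ _ _ (by decide +kernel) (by decide +kernel)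
theorem Q2 : g bX * g bE = g bB * g bE := rel2 _ _ _ _ (by decide +kernel) (by decide +kernel)
theorem Q3 : g bA * g bE = g bB * g bD := rel2 _ _ _ _ (by decide +kernel) (by decide +kernel)
theorem Q4 : g bD * g aD = g bE * g aE := rel2 _ _ _ _ (by decide +kernel) (by decide +kernel)

/-- the failure of left cancellation -/
theorem no_cancel_eq : g bA * (g bD * g aD) = g bA * (g bE * g aD) := by
  calc g bA * (g bD * g aD) = g bA * g bD * g aD := (mul_assoc _ _ _).symm
    _ = g bX * g bD * g aD := by rw [Q1]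
    _ = g bX * (g bD * g aD) := mul_assoc _ _ _
    _ = g bX * (g bE * g aE) := by rw [Q4]
    _ = g bX * g bE * g aE := (mul_assoc _ _ _).symm
    _ = g bB * g bE * g aE := by rw [Q2]
    _ = g bB * (g bE * g aE) := mul_assoc _ _ _
    _ = g bB * (g bD * g aD) := by rw [Q4]
    _ = g bB * g bD * g aD := (mul_assoc _ _ _).symm
    _ = g bA * g bE * g aD := by rw [Q3]
    _ = g bA * (g bE * g aD) := mul_assoc _ _ _

theorem no_cancel_ne : g bD * g aD ≠ g bE * g aD := by
  intro h
  have := congrArg act1 h
  simp only [map_mul, act1_g, tr_mul] at this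
  have h2 := tr_inj this 0
  exact absurd h2 (by decide +kernel)

/-- The two elements. -/
def p : Mon col := g aA * g aE * g aA
def q : Mon col := g aA * g aE * g aD

theorem p_eq : p = g aE * g aD * g aA := by
  unfold p
  calc g aA * g aE * g aA = g aA * (g aE * g aA) := mul_assoc _ _ _
    _ = g aA * (g aD * g aA) := by rw [R3]
    _ = g aA * g aD * g aA := (mul_assoc _ _ _).symm
    _ = g aX * g aD * g aA := by rw [R1]
    _ = g aX * (g aD * g aA) := mul_assoc _ _ _
    _ = g aX * (g aE * g aA) := by rw [R3]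
    _ = g aX * g aE * g aA := (mul_assoc _ _ _).symm
    _ = g aB * g aE * g aA := by rw [R2]
    _ = g aB * (g aE * g aA) := mul_assoc _ _ _
    _ = g aB * (g aD * g aA) := by rw [R3]
    _ = g aB * g aD * g aA := (mul_assoc _ _ _).symm
    _ = g aE * g aD * g aA := by rw [R4]

theorem q_eq : q = g aE * g aD * g aD := by
  unfold q
  rw [mul_assoc, R5, mul_assoc]

theorem p_ne_q : p ≠ q := by
  intro h
  have := congrArg act3 h
  unfold p q at this
  simp only [map_mul, act3_g, tr_mul] at this
  have h2 := tr_inj this 0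
  exact absurd h2 (by decide +kernel)

theorem ae_ne_ed : g aA * g aE ≠ g aE * g aD := by
  intro h
  have := congrArg act2 h
  simp only [map_mul, act2_g, tr_mul] at this
  have h2 := tr_inj this 0
  exact absurd h2 (by decide +kernel)

/-- The length as a natural number. -/
def ln (w : Mon col) : ℕ := Multiplicative.toAdd (len w)

theorem ln_mul (v w : Mon col) : ln (v * w) = ln v + ln w := by
  unfold ln
  rw [map_mul]
  rfl

theorem ln_g (s : Atm E) : ln (g s) = 1 := rfl

theorem ln_one : ln (1 : Mon col) = 0 := rfl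

theorem last_letter (w : Mon col) : w = 1 ∨ ∃ v s, w = v * g s := by
  obtain ⟨l, rfl⟩ := PresentedMonoid.surjective_mk w
  have key : ∀ l : List (Atm E),
      PresentedMonoid.mk (Rel col) (FreeMonoid.ofList l) = 1 ∨ ∃ v s,
        PresentedMonoid.mk (Rel col) (FreeMonoid.ofList l) = v * g s := by
    intro l
    rcases List.eq_nil_or_concat l with rfl | ⟨l', a, rfl⟩
    · exact Or.inl rfl
    · refine Or.inr ⟨(l'.map g).prod, a, ?_⟩
      rw [mk_ofList]
      simp
  exact key l.toList

theorem eq_one_of_ln (w : Mon col) (h : ln w = 0) : w = 1 := by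
  rcases last_letter w with h1 | ⟨v, s, rfl⟩
  · exact h1
  · rw [ln_mul, ln_g] at h
    omega

theorem no_gcd (d : Mon col) (h : IsGCLD d p q) : False := by
  obtain ⟨⟨t, ht⟩, ⟨t', ht'⟩, hd⟩ := h
  obtain ⟨r, hr⟩ := hd (g aA * g aE) ⟨g aA, rfl⟩ ⟨g aD, rfl⟩
  obtain ⟨s, hs⟩ := hd (g aE * g aD) ⟨g aA, p_eq⟩ ⟨g aD, q_eq⟩
  have e1 : ln p = 3 := rfl
  have e2 : ln q = 3 := rfl
  have e3 : ln (g aA * g aE) = 2 := rfl
  have e4 : ln (g aE * g aD) = 2 := rfl
  have l1 := congrArg ln ht
  have l2 := congrArg ln ht'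
  have l3 := congrArg ln hr
  have l4 := congrArg ln hs
  rw [ln_mul] at l1 l2 l3 l4
  rw [e1] at l1
  rw [e2] at l2
  rw [e3] at l3
  rw [e4] at l4
  rcases Nat.eq_zero_or_pos (ln r) with h0 | h0
  · have hr1 := eq_one_of_ln r h0
    have hs1 := eq_one_of_ln s (by omega)
    rw [hr1, mul_one] at hr
    rw [hs1, mul_one] at hs
    exact ae_ne_ed (hr.symm.trans hs)
  · have h1 := eq_one_of_ln t (by omega)
    have h2 := eq_one_of_ln t' (by omega)
    rw [h1, mul_one] at ht
    rw [h2, mul_one] at ht'
    exact p_ne_q (ht.trans ht'.symm)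

/-! ## The poset is not upper homogeneous -/

/-- strictly below -/
def Lt {T : Type} (R : T → T → Prop) (u v : T) : Prop := R u v ∧ ¬ R v u

/-- there is a chain of length two ending at `t`, and none of length three -/
def H2 {T : Type} (R : T → T → Prop) (t : T) : Prop :=
  (∃ p q, Lt R q p ∧ Lt R p t) ∧ ¬ ∃ p q r, Lt R r q ∧ Lt R q p ∧ Lt R p t

theorem h2_iff {T : Type} (R : T → T → Prop) (δ : T → ℕ) (h1 : ∀ u v, Lt R u v → δ u < δ v)
    (h2 : ∀ t, 0 < δ t → ∃ p, Lt R p t ∧ δ p + 1 = δ t) (t : T) : H2 R t ↔ δ t = 2 := by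
  constructor
  · rintro ⟨⟨p, q, hqp, hpt⟩, hno⟩
    have a1 := h1 _ _ hqp
    have a2 := h1 _ _ hpt
    by_contra hcon
    obtain ⟨p', hp', e1⟩ := h2 t (by omega)
    obtain ⟨q', hq', e2⟩ := h2 p' (by omega)
    obtain ⟨r', hr', e3⟩ := h2 q' (by omega)
    exact hno ⟨p', q', r', hr', hq', hp'⟩
  · intro ht
    obtain ⟨p', hp', e1⟩ := h2 t (by omega)
    obtain ⟨q', hq', e2⟩ := h2 p' (by omega)
    refine ⟨⟨p', q', hq', hp'⟩, ?_⟩
    rintro ⟨p, q, r, c1, c2, c3⟩
    have a1 := h1 _ _ c1
    have a2 := h1 _ _ c2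
    have a3 := h1 _ _ c3
    omega

theorem h2_congr {T T' : Type} (R : T → T → Prop) (R' : T' → T' → Prop) (f : T ≃ T')
    (hf : ∀ u v, R u v ↔ R' (f u) (f v)) (t : T) : H2 R t ↔ H2 R' (f t) := by
  have hlt : ∀ u v, Lt R u v ↔ Lt R' (f u) (f v) := fun u v => by
    unfold Lt
    rw [hf u v, hf v u]
  have hlt' : ∀ u v, Lt R' u v ↔ Lt R (f.symm u) (f.symm v) := fun u v => by
    rw [hlt]; simp
  constructor
  · rintro ⟨⟨p, q, a, b⟩, hno⟩
    refine ⟨⟨f p, f q, (hlt _ _).1 a, (hlt _ _).1 b⟩, ?_⟩
    rintro ⟨p, q, r, c1, c2, c3⟩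
    refine hno ⟨f.symm p, f.symm q, f.symm r, (hlt' _ _).1 c1, (hlt' _ _).1 c2, ?_⟩
    have := (hlt' _ _).1 c3
    rwa [Equiv.symm_apply_apply] at this
  · rintro ⟨⟨p, q, a, b⟩, hno⟩
    refine ⟨⟨f.symm p, f.symm q, (hlt' _ _).1 a, ?_⟩, ?_⟩
    · have := (hlt' _ _).1 b
      rwa [Equiv.symm_apply_apply] at this
    · rintro ⟨p, q, r, c1, c2, c3⟩
      exact hno ⟨f p, f q, f r, (hlt _ _).1 c1, (hlt _ _).1 c2, (hlt _ _).1 c3⟩

theorem lt_ln {u v : Mon col} (h1 : LeftDvd u v) (h2 : ¬ LeftDvd v u) : ln u < ln v := by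
  obtain ⟨w, rfl⟩ := h1
  rw [ln_mul]
  rcases Nat.eq_zero_or_pos (ln w) with h0 | h0
  · exfalso
    apply h2
    rw [eq_one_of_ln w h0, mul_one]
    exact ⟨1, (mul_one _).symm⟩
  · omega

theorem not_dvd {u v : Mon col} (h : ln u < ln v) : ¬ LeftDvd v u := by
  rintro ⟨w, rfl⟩
  rw [ln_mul] at h
  omega

theorem h2_mon (w : Mon col) : H2 LeftDvd w ↔ ln w = 2 := by
  refine h2_iff _ ln (fun u v h => lt_ln h.1 h.2) (fun t ht => ?_) w
  rcases last_letter t with rfl | ⟨v, s, rfl⟩
  · rw [ln_one] at ht; omega
  · refine ⟨v, ⟨⟨g s, rfl⟩, not_dvd ?_⟩, ?_⟩ <;> rw [ln_mul, ln_g]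
    omega

theorem h2_filter (a : Mon col) (w : {w : Mon col // LeftDvd a w}) :
    H2 (fun u v : {w : Mon col // LeftDvd a w} => LeftDvd u.1 v.1) w ↔ ln w.1 = ln a + 2 := by
  have hle : ∀ w : {w : Mon col // LeftDvd a w}, ln a ≤ ln w.1 := by
    rintro ⟨w, t, rfl⟩
    rw [ln_mul]; omega
  have key := h2_iff (fun u v : {w : Mon col // LeftDvd a w} => LeftDvd u.1 v.1)
    (fun w => ln w.1 - ln a) (fun u v h => by
      have h1 := lt_ln h.1 h.2
      have h2 := hle u
      omega) (fun t ht => by
      obtain ⟨w, t, rfl⟩ := t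
      simp only [ln_mul] at ht
      rcases last_letter t with rfl | ⟨v, s, rfl⟩
      · rw [ln_one] at ht; omega
      · refine ⟨⟨a * v, v, rfl⟩, ⟨⟨g s, (mul_assoc _ _ _).symm⟩, not_dvd ?_⟩, ?_⟩
        · simp only [ln_mul, ln_g]; omega
        · simp only [ln_mul, ln_g]; omega) w
  rw [key]
  have := hle w
  constructor <;> intro h <;> omega

theorem finite_two : Finite {u : Mon col // ln u = 2} := by
  have h : Set.Finite {u : Mon col | ln u = 2} := by
    refine (Set.finite_range (fun p : Atm E × Atm E => g p.1 * g p.2)).subset ?_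
    intro u hu
    rcases last_letter u with rfl | ⟨v, s, rfl⟩
    · exact absurd hu (by change ¬ ln 1 = 2; rw [ln_one]; omega)
    · rcases last_letter v with rfl | ⟨v', s', rfl⟩
      · exact absurd hu (by change ¬ ln (1 * g s) = 2; rw [ln_mul, ln_one, ln_g]; omega)
      · have h0 : ln v' = 0 := by
          have : ln (v' * g s' * g s) = 2 := hu
          rw [ln_mul, ln_mul, ln_g, ln_g] at this
          omega
        rw [eq_one_of_ln v' h0, one_mul]
        exact ⟨(s', s), rfl⟩
  exact h.to_subtype

/-- The principal filter of the generator `bA` is not isomorphic to the whole poset. -/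
theorem not_iso (f : {w : Mon col // LeftDvd (g bA) w} ≃ Mon col)
    (hf : ∀ v w, LeftDvd v.1 w.1 ↔ LeftDvd (f v) (f w)) : False := by
  have := finite_two
  have hmem : ∀ u : {u : Mon col // ln u = 2}, ln (f ⟨g bA * u.1, u.1, rfl⟩) = 2 := by
    intro u
    rw [← h2_mon, ← h2_congr _ _ f hf, h2_filter, ln_mul, u.2]
  let F : {u : Mon col // ln u = 2} → {u : Mon col // ln u = 2} :=
    fun u => ⟨f ⟨g bA * u.1, u.1, rfl⟩, hmem u⟩
  have hsurj : Function.Surjective F := by
    intro t
    have h1 : ln (f.symm t.1).1 = ln (g bA) + 2 := by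
      rw [← h2_filter, h2_congr _ _ f hf, Equiv.apply_symm_apply, h2_mon]
      exact t.2
    obtain ⟨u, hu⟩ := (f.symm t.1).2
    rw [hu, ln_mul] at h1
    refine ⟨⟨u, by omega⟩, ?_⟩
    apply Subtype.ext
    change f ⟨g bA * u, u, rfl⟩ = t.1
    have h3 : (⟨g bA * u, u, rfl⟩ : {w : Mon col // LeftDvd (g bA) w}) = f.symm t.1 :=
      Subtype.ext hu.symm
    rw [h3, Equiv.apply_symm_apply]
  have hinj := Finite.injective_iff_surjective.2 hsurj
  have e : F ⟨g bD * g aD, rfl⟩ = F ⟨g bE * g aD, rfl⟩ := by
    apply Subtype.ext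
    change f ⟨g bA * (g bD * g aD), _⟩ = f ⟨g bA * (g bE * g aD), _⟩
    congr 1
    exact Subtype.ext no_cancel_eq
  exact no_cancel_ne (congrArg Subtype.val (hinj e))

end Pool.Agent.H34.Upho
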